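import Pool.Agent.U832.RH.Use
import Pool.Agent.U832.RH.QGe
import Pool.Agent.TH464.PW.Quad

/-!
# Differences of cubes with three prime factors and the windows around them

The `k` for which `((k + t) ^ 3 - k ^ 3) / t` (for `t = 1` a difference of consecutive cubes, `3 k ^ 2 + 3 k + 1`)
has at most three prime factors see the other values without small prime factors as a Poisson process, up to constant
factors, in all intervals.
-/

set_option autoImplicit false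

namespace Pool.Agent.Results.MP_22d6bb_nt.P3InWindows

open Finset Filter Pool.Agent.U832.RG Pool.Agent.U832.RH

/-- The number `((k + t) ^ 3 - k ^ 3) / t`. -/
def D (t k : ℕ) : ℕ := ((k + t) ^ 3 - k ^ 3) / t

/-- The `k` for which `D t k` has no prime factor `≤ y`. -/
def Rough (t y : ℕ) : Set ℕ := {k | ∀ p : ℕ, p.Prime → p ≤ y → ¬ p ∣ D t k}

/-- The `k` for which `D t k` has at most `R` prime factors, counted with multiplicity, and all of them are `≥ z`. -/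
def AlmostPrime (t R : ℕ) (z : ℝ) : Set ℕ :=
  {k | (D t k).primeFactorsList.length ≤ R ∧ ∀ p : ℕ, p.Prime → p ∣ D t k → z ≤ p}

/-- The `k` for which `D t k` has no prime factor `< z`. -/
def Free (t : ℕ) (z : ℝ) : Set ℕ := {k | ∀ p : ℕ, p.Prime → (p : ℝ) < z → ¬ p ∣ D t k}

/-- The number of the `k` modulo `p` for which `p` divides `D t k`. -/
def roots (t p : ℕ) : ℕ := ((range p).filter (fun k : ℕ => p ∣ D t k)).card

/-- The product of `1 - roots t p / p` over the primes `p ≤ y`. -/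
noncomputable def V (t y : ℕ) : ℝ := ∏ p ∈ (Icc 1 y).filter Nat.Prime, (1 - (roots t p : ℝ) / p)

section aux

open Pool.Agent.H373R2.T7 Pool.Agent.W123.RP Pool.Agent.TH464.PW
open Pool.Agent.TH464.PO (Sf)
open Pool.Agent.W123.RU.Poly (Q)

lemma D_eq (t k : ℕ) (ht : 1 ≤ t) : D t k = 3 * k ^ 2 + 3 * t * k + t ^ 2 := by
  unfold D
  rw [show (k + t) ^ 3 - k ^ 3 = t * (3 * k ^ 2 + 3 * t * k + t ^ 2) by
    rw [show (k + t) ^ 3 = t * (3 * k ^ 2 + 3 * t * k + t ^ 2) + k ^ 3 by ring]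
    exact Nat.add_sub_cancel _ _]
  exact Nat.mul_div_cancel_left _ (by omega)

/-- the polynomial -/
noncomputable def F (t : ℕ) : Polynomial ℤ := QG 3 (3 * t) ((t : ℤ) ^ 2)

lemma F_eval (t k : ℕ) (ht : 1 ≤ t) : (F t).eval (k : ℤ) = (D t k : ℤ) := by
  unfold F
  rw [QG_eval, D_eq t k ht]
  push_cast
  ring

lemma rough_iff (t y n : ℕ) (ht : 1 ≤ t) : n ∈ Rough t y ↔ Sf (Q (sg (F t))) y n := by
  unfold Sf Rough
  simp only [sg_Q, F_eval t _ ht, mem_pz, Set.mem_ofPred_eq, Int.natCast_dvd_natCast]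
  constructor
  · exact fun h p hp => h p hp.2 hp.1
  · exact fun h p hp hpy => h p ⟨hpy, hp⟩

lemma V_eq (t y : ℕ) (ht : 1 ≤ t) : Vq (Q (sg (F t))) y = V t y := by
  classical
  have hpz : pz y = (Icc 1 y).filter Nat.Prime := by
    ext p
    rw [mem_pz, mem_filter, mem_Icc]
    constructor
    · exact fun h => ⟨⟨h.2.one_lt.le, h.1⟩, h.2⟩
    · exact fun h => ⟨h.1.2, h.2⟩
  unfold Vq V
  rw [hpz]
  apply Finset.prod_congr rfl
  intro p _
  congr 3
  unfold roots nuB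
  congr 1
  ext m
  rw [mem_filter, mem_filter, sg_Q, F_eval t m ht, Int.natCast_dvd_natCast]

lemma hyp (t : ℕ) (ht : 1 ≤ t) (h3 : ¬ 3 ∣ t) :
    (∀ p : ℕ, p.Prime → ¬ ((p : ℤ) ∣ 3 ∧ (p : ℤ) ∣ 3 * t ∧ (p : ℤ) ∣ (t : ℤ) ^ 2)) ∧
    ¬ (Even ((3 : ℤ) + 3 * t) ∧ Even ((t : ℤ) ^ 2)) ∧ ¬ IsSquare ((3 * (t : ℤ)) ^ 2 - 4 * 3 * (t : ℤ) ^ 2) := by
  refine ⟨fun p hp h1 => ?_, fun h1 => ?_, fun h1 => ?_⟩
  · have h4 : p ∣ 3 := by exact_mod_cast h1.1
    have h5 := (Nat.prime_dvd_prime_iff_eq hp Nat.prime_three).1 h4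
    subst h5
    have h6 : 3 ∣ t ^ 2 := by exact_mod_cast h1.2.2
    exact h3 (Nat.prime_three.dvd_of_dvd_pow h6)
  · obtain ⟨h4, h5⟩ := h1
    rw [Int.even_pow' two_ne_zero] at h5
    rw [Int.even_add, Int.even_mul] at h4
    have h6 : ¬ Even (3 : ℤ) := by decide
    exact h6 (h4.2 (Or.inr h5))
  · obtain ⟨r, hr⟩ := h1
    have h4 : (1 : ℤ) ≤ t := by exact_mod_cast ht
    nlinarith [mul_self_nonneg r]

end aux

/-- Let `t ≥ 1` not be divisible by `3`, `0 < θ ≤ 1`, and let `R` be an integer with `9 / 8 + 25 / (12 θ) < R + 1` (for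
instance `R = 3`, `3 / 4 ≤ θ ≤ 1`). There are `c, C > 0` such that for all `J`, `L`, `x₀`, all `ε > 0`, all large `r`
and all large `X`, with `y = ⌊X ^ (1 / r)⌋`: for ALL intervals `(Z, Z + Y]` with `X ^ θ ≤ Y`, `Z + Y ≤ X`, all disjoint
windows `(d j, e j] ⊆ (0, T]`, `j < J`, `T V ≤ x₀`, all `s ≤ T` outside of them and all `l j ≤ L`, let `Π` be the
product of the probabilities that a Poisson variable of mean `(e j - d j) V` has the value `l j`. Then
(1) the number of the `n` in `(Z, Z + Y]` for which `D t (n + s)` has at most `R` prime factors, all of them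
`≥ X ^ (θ / 5)`, and for which exactly `l j` of the `m` in `(n + d j, n + e j]` have `D t m` free of prime factors
`≤ y`, for all `j`, is at least `(c Π - ε) Y / log X`;
(2) the number of the `n` with the same windows for which `D t (n + s)` has no prime factor `< X ^ (θ / 4)`
is at most `(C Π + ε) Y / log X`. -/
theorem result (t : ℕ) (ht : 1 ≤ t) (h3 : ¬ 3 ∣ t) (θ : ℝ) (hθ : 0 < θ) (hθ1 : θ ≤ 1) (R : ℕ)
    (hR : 9 / 8 + 25 / (12 * θ) < R + 1) :
    ∃ c C : ℝ, 0 < c ∧ 0 < C ∧ ∀ (J L : ℕ) (x₀ ε : ℝ), 0 < ε → ∃ r₀ : ℕ, ∀ r : ℕ, r₀ ≤ r → ∀ᶠ X : ℕ in atTop,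
      ∀ y : ℕ, y = ⌊(X : ℝ) ^ (1 / (r : ℝ))⌋₊ →
      ∀ Z Y T : ℕ, Z + Y ≤ X → (X : ℝ) ^ θ ≤ Y → T * V t y ≤ x₀ →
      ∀ (s : ℕ) (d e l : Fin J → ℕ), Windows T s d e → (∀ j, l j ≤ L) →
      (c * ∏ j, poisson (l j) ((e j - d j : ℕ) * V t y) - ε) * (Y / Real.log X) ≤
        seen (AlmostPrime t R ((X : ℝ) ^ (θ / 5))) (Rough t y) s d e l Z Y ∧
      (seen (Free t ((X : ℝ) ^ (θ / 4))) (Rough t y) s d e l Z Y : ℝ) ≤
        (C * ∏ j, poisson (l j) ((e j - d j : ℕ) * V t y) + ε) * (Y / Real.log X) := by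
  obtain ⟨g1, g2, g3⟩ := hyp t ht h3
  obtain ⟨w, hw1, hw2, c, C, hc, hC, H⟩ := quadG_law 3 (3 * t) ((t : ℤ) ^ 2) (by norm_num) g3
    (Pool.Agent.TH464.PW.quad_irr _ _ _ (by norm_num) g1 g3) (fun p hp => by
      obtain ⟨m, hm⟩ := Pool.Agent.TH464.PW.quad_adm 3 (3 * t) ((t : ℤ) ^ 2) g1 g2 p hp
      rw [Pool.Agent.TH464.PW.quad_eval] at hm
      exact ⟨m, hm⟩) θ hθ hθ1 R hR
  refine ⟨c, C, hc, hC, ?_⟩
  intro J L x₀ ε hε
  obtain ⟨r₀, H'⟩ := H J L x₀ ε hε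
  refine ⟨r₀, fun r hr => ?_⟩
  filter_upwards [H' r hr, eventually_ge_atTop 1] with X hX hX1
  intro y hy Z Y T hZ hY hT s d e l hwin hk
  have hX1r : (1 : ℝ) ≤ X := by exact_mod_cast hX1
  have hVF : Pool.Agent.W123.RP.Vq (Pool.Agent.W123.RU.Poly.Q (sg (QG 3 (3 * t) ((t : ℤ) ^ 2)))) y = V t y := V_eq t y ht
  have h := hX y hy Z Y T hZ hY (by rw [hVF]; exact hT) s d e l hwin hk
  rw [hVF] at h
  obtain ⟨h1, h2⟩ := h
  refine ⟨h1.trans ?_, le_trans ?_ h2⟩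
  · have h3 := cntAP_le (F t) R ((X : ℝ) ^ w) y s d e l Z Y
      (AlmostPrime t R ((X : ℝ) ^ (θ / 5))) (Rough t y) (fun m => rough_iff t y m ht) (fun m hm1 hm2 => by
        rw [F_eval t m ht, Int.natAbs_natCast] at hm1 hm2
        refine ⟨hm1, fun p hp hpd => ?_⟩
        refine le_trans ?_ (hm2 p hp hpd)
        exact Real.rpow_le_rpow_of_exponent_le hX1r hw1)
    exact_mod_cast h3
  · have h3 := le_cntR (F t) ((X : ℝ) ^ w) y s d e l Z Y
      (Free t ((X : ℝ) ^ (θ / 4))) (Rough t y) (fun m => rough_iff t y m ht) (fun m hm p hp hpw => by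
        rw [F_eval t m ht, Int.natCast_dvd_natCast]
        exact hm p hp (hpw.trans_le (Real.rpow_le_rpow_of_exponent_le hX1r hw2)))
    exact_mod_cast h3

end Pool.Agent.Results.MP_22d6bb_nt.P3InWindows
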