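import Pool.Agent.U832.RG.Use
import Pool.Agent.Y879.GL.QuadU
import Pool.Agent.TH464.PO.QuadAP

/-!
# Differences of cubes: the almost primes `((k + t) ^ 3 - k ^ 3) / t` form a Poisson process, uniformly in `t`

For `t = 1` these are the differences of consecutive cubes, `3 k ^ 2 + 3 k + 1`. Consider, for `t ≤ X ^ A` not
divisible by `3`, the `k` for which `((k + t) ^ 3 - k ^ 3) / t` has no prime factor `≤ X ^ (1 / r)` (for `k ≤ X ^ A`
this number has a bounded number of prime factors). Uniformly in `t`, and in all intervals of length `≥ X ^ θ`: the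
numbers of such `k` in disjoint windows, seen from an arbitrary such `k` or from an arbitrary integer, are independent
Poisson variables.
-/

set_option autoImplicit false

namespace Pool.Agent.Results.MP_22d6bb_nt.PoissonWindows

open Finset Filter Pool.Agent.U832.RG

/-- The number `((k + t) ^ 3 - k ^ 3) / t`. -/
def D (t k : ℕ) : ℕ := ((k + t) ^ 3 - k ^ 3) / t

/-- The `k` for which `((k + t) ^ 3 - k ^ 3) / t` has no prime factor `≤ y`. -/
def Rough (t y : ℕ) : Set ℕ := {k | ∀ p : ℕ, p.Prime → p ≤ y → ¬ p ∣ D t k}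

/-- The number of the `k` modulo `p` for which `p` divides `((k + t) ^ 3 - k ^ 3) / t`. -/
def roots (t p : ℕ) : ℕ := ((range p).filter (fun k : ℕ => p ∣ D t k)).card

/-- The product of `1 - roots t p / p` over the primes `p ≤ y`. -/
noncomputable def V (t y : ℕ) : ℝ := ∏ p ∈ (Icc 1 y).filter Nat.Prime, (1 - (roots t p : ℝ) / p)

/-- The product of `1 - 1 / p` over the primes `p ≤ y`. -/
noncomputable def mertens (y : ℕ) : ℝ := ∏ p ∈ (Icc 1 y).filter Nat.Prime, (1 - 1 / (p : ℝ))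

section aux

open Pool.Agent.Y879.GL Pool.Agent.TH464.PO Pool.Agent.H373R2.T7 Pool.Agent.W123.RP Pool.Agent.TH464.PW
open Pool.Agent.W123.RU.Poly (Q)

lemma D_eq (t k : ℕ) (ht : 1 ≤ t) : D t k = 3 * k ^ 2 + 3 * t * k + t ^ 2 := by
  unfold D
  rw [show (k + t) ^ 3 - k ^ 3 = t * (3 * k ^ 2 + 3 * t * k + t ^ 2) by
    rw [show (k + t) ^ 3 = t * (3 * k ^ 2 + 3 * t * k + t ^ 2) + k ^ 3 by ring]
    exact Nat.add_sub_cancel _ _]
  exact Nat.mul_div_cancel_left _ (by omega)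

/-- the system -/
noncomputable def fs (t : ℕ) : Fin 1 → Polynomial ℤ := qs 3 (3 * t) ((t : ℤ) ^ 2)

lemma fs_Q (t p m : ℕ) (ht : 1 ≤ t) : Q (fs t) p m ↔ p ∣ D t m := by
  unfold fs
  rw [qs_Q, D_eq t m ht, ← Int.natCast_dvd_natCast]
  push_cast
  rfl

lemma pz_eq (y : ℕ) : pz y = (Icc 1 y).filter Nat.Prime := by
  ext p
  rw [mem_pz, mem_filter, mem_Icc]
  constructor
  · exact fun h => ⟨⟨h.2.one_lt.le, h.1⟩, h.2⟩
  · exact fun h => ⟨h.1.2, h.2⟩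

lemma rough_iff (t y n : ℕ) (ht : 1 ≤ t) : n ∈ Rough t y ↔ Sf (Q (fs t)) y n := by
  constructor
  · intro h p hp
    rw [fs_Q t p n ht]
    exact h p (mem_pz.1 hp).2 (mem_pz.1 hp).1
  · intro h p hp hpy
    have h1 := h p (mem_pz.2 ⟨hpy, hp⟩)
    rwa [fs_Q t p n ht] at h1

lemma V_eq (t y : ℕ) (ht : 1 ≤ t) : Vq (Q (fs t)) y = V t y := by
  classical
  unfold Vq V
  rw [pz_eq]
  apply Finset.prod_congr rfl
  intro p _
  congr 3
  unfold roots nuB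
  congr 1
  ext m
  rw [mem_filter, mem_filter, fs_Q t p m ht]

lemma mertens_eq (y : ℕ) : Vz y = mertens y := by
  unfold Vz mertens
  rw [pz_eq]

lemma hyp (t : ℕ) (ht : 1 ≤ t) (h3 : ¬ 3 ∣ t) :
    (∀ p : ℕ, p.Prime → ¬ ((p : ℤ) ∣ 3 ∧ (p : ℤ) ∣ 3 * t ∧ (p : ℤ) ∣ (t : ℤ) ^ 2)) ∧
    ¬ (Even ((3 : ℤ) + 3 * t) ∧ Even ((t : ℤ) ^ 2)) ∧ ¬ IsSquare ((3 * (t : ℤ)) ^ 2 - 4 * 3 * (t : ℤ) ^ 2) := by
  refine ⟨fun p hp h1 => ?_, fun h1 => ?_, fun h1 => ?_⟩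
  · have h4 : p ∣ 3 := by exact_mod_cast h1.1
    have h5 := (Nat.prime_dvd_prime_iff_eq hp Nat.prime_three).1 h4
    subst h5
    have h6 : 3 ∣ t ^ 2 := by exact_mod_cast h1.2.2
    exact h3 (Nat.prime_three.dvd_of_dvd_pow h6)
  · obtain ⟨h4, h5⟩ := h1
    rw [Int.even_pow' two_ne_zero] at h5
    rw [Int.even_add, Int.even_mul] at h4
    have h6 : ¬ Even (3 : ℤ) := by decide
    exact h6 (h4.2 (Or.inr h5))
  · obtain ⟨r, hr⟩ := h1
    have h4 : (1 : ℤ) ≤ t := by exact_mod_cast ht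
    nlinarith [mul_self_nonneg r]

lemma us_t (A t : ℕ) (ht : 1 ≤ t) (h3 : ¬ 3 ∣ t) (X : ℕ) (hX : 9 ≤ X) (htX : t ≤ X ^ A) (U : ℝ) :
    US 1 2 ((X : ℝ) ^ (2 * (A : ℝ) + 1)) U (fs t) := by
  obtain ⟨g1, g2, g3⟩ := hyp t ht h3
  have hX1r : (1 : ℝ) ≤ X := by exact_mod_cast (by omega : 1 ≤ X)
  have e : (X : ℝ) ^ (2 * (A : ℝ) + 1) = (((X : ℤ) ^ (2 * A + 1) : ℤ) : ℝ) := by
    rw [show (2 * (A : ℝ) + 1) = ((2 * A + 1 : ℕ) : ℝ) by push_cast; ring, Real.rpow_natCast]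
    push_cast
    ring
  have h1 : (1 : ℤ) ≤ (X : ℤ) ^ A := one_le_pow₀ (by exact_mod_cast (by omega : 1 ≤ X))
  have htz : (t : ℤ) ≤ (X : ℤ) ^ A := by exact_mod_cast htX
  have ht1 : (1 : ℤ) ≤ t := by exact_mod_cast ht
  have hXz : (9 : ℤ) ≤ X := by exact_mod_cast hX
  have e2 : (X : ℤ) ^ (2 * A + 1) = X * ((X : ℤ) ^ A * (X : ℤ) ^ A) := by ring
  have h2 : (X : ℤ) ^ A * 1 ≤ (X : ℤ) ^ A * (X : ℤ) ^ A := mul_le_mul_of_nonneg_left h1 (by linarith)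
  have h4 : (9 : ℤ) * ((X : ℤ) ^ A * (X : ℤ) ^ A) ≤ X * ((X : ℤ) ^ A * (X : ℤ) ^ A) :=
    mul_le_mul_of_nonneg_right hXz (by positivity)
  have h5 : (t : ℤ) ^ 2 ≤ (X : ℤ) ^ A * (X : ℤ) ^ A := by
    rw [sq]
    exact mul_le_mul htz htz (by linarith) (by linarith)
  apply us_single (quad 3 (3 * t) ((t : ℤ) ^ 2)) (quad_irr _ _ _ (by norm_num) g1 g3)
  · rw [quad_deg _ _ _ (by norm_num)]
    norm_num
  · rw [quad_deg _ _ _ (by norm_num)]
  · intro n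
    have h6 := quad_coeff 3 (3 * t) ((t : ℤ) ^ 2) n ((X : ℤ) ^ (2 * A + 1))
      (by rw [e2, show |(3 : ℤ)| = 3 by norm_num]; linarith)
      (by rw [e2, abs_of_nonneg (by linarith)]; linarith)
      (by rw [e2, abs_of_nonneg (by positivity)]; linarith)
    rw [e, ← Int.cast_abs, Int.cast_le]
    exact h6
  · intro p hp
    exact quad_adm _ _ _ g1 g2 p hp

lemma V_up (r : ℕ) (hr : 2 ≤ r) (B : ℝ) : ∃ Cv : ℝ, 0 < Cv ∧ ∀ᶠ X : ℕ in atTop,
    ∀ y : ℕ, y = ⌊(X : ℝ) ^ (1 / (r : ℝ))⌋₊ → B * mertens y ≤ Cv / Real.log X := by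
  obtain ⟨C, hC, hVz⟩ := Vz_up r hr
  refine ⟨(|B| + 1) * C, by positivity, ?_⟩
  filter_upwards [hVz] with X hX y hy
  rw [← hy, mertens_eq] at hX
  have h0 : B ≤ |B| + 1 := by
    have := le_abs_self B
    linarith
  calc B * mertens y ≤ (|B| + 1) * mertens y := mul_le_mul_of_nonneg_right h0 hX.1
    _ ≤ (|B| + 1) * (C / Real.log X) := mul_le_mul_of_nonneg_left hX.2 (by positivity)
    _ = (|B| + 1) * C / Real.log X := by ring

end aux

/-- Let `A` be a natural number and `θ > 0`. (1) For all `J`, `L`, `x₀`, all `ε > 0`, all large `r` and all `B`: for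
all large `X`, with `y = ⌊X ^ (1 / r)⌋`, for ALL `1 ≤ t ≤ X ^ A`, not divisible by `3`, with
`V t y ≤ B ∏ (1 - 1 / p)` (product over the primes `p ≤ y`), ALL intervals `(Z, Z + Y]` with `Y ≥ X ^ θ` and all `T`
with `T V ≤ x₀`, the set `Rough t y` satisfies `PoissonLaw`: for all disjoint windows `(a j, b j] ⊆ (0, T]`,
`j < J`, all `s ≤ T` outside of them and all `l j ≤ L`, the number of the `n` in `(Z, Z + Y]` with `n + s ∈ Rough t y`
and exactly `l j` elements of `Rough t y` in `(n + a j, n + b j]` for all `j` is `Y V` times the product of the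
probabilities that a Poisson variable of mean `(b j - a j) V` has the value `l j`, up to `ε Y V`; and the same without
the condition on `n + s`, with `Y` instead of `Y V`.
(2) Every fixed `t ≥ 1` not divisible by `3`, in particular `t = 1`, satisfies the condition on `V t y`, with some
`B = B (t)`. -/
theorem result (A : ℕ) (θ : ℝ) (hθ : 0 < θ) :
    (∀ (J L : ℕ) (x₀ ε : ℝ), 0 < ε → ∃ r₀ : ℕ, ∀ r : ℕ, r₀ ≤ r → ∀ B : ℝ, ∀ᶠ X : ℕ in atTop,
      ∀ y : ℕ, y = ⌊(X : ℝ) ^ (1 / (r : ℝ))⌋₊ →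
      ∀ t : ℕ, 1 ≤ t → ¬ 3 ∣ t → t ≤ X ^ A → V t y ≤ B * mertens y →
      ∀ Z Y T : ℕ, (X : ℝ) ^ θ ≤ Y → T * V t y ≤ x₀ → PoissonLaw (Rough t y) (V t y) J L ε Z Y T) ∧
    ∀ t : ℕ, 1 ≤ t → ¬ 3 ∣ t → ∃ B : ℝ, ∀ y : ℕ, 3 ≤ y → V t y ≤ B * mertens y := by
  refine ⟨?_, ?_⟩
  · intro J L x₀ ε hε
    obtain ⟨r₀, h⟩ := law_polys 1 2 (2 * (A : ℝ) + 1) 1 θ (by positivity) one_pos hθ J L x₀ ε hε
    refine ⟨max r₀ 2, fun r hr B => ?_⟩
    obtain ⟨Cv, hCv, hV⟩ := V_up r ((le_max_right _ _).trans hr) B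
    filter_upwards [h r ((le_max_left _ _).trans hr) Cv, hV, eventually_ge_atTop 9] with X hX hVX hX1
    intro y hy t ht h3 htX hVa Z Y T hY hT
    have h4 := hX (fs t) (us_t A t ht h3 X hX1 htX _)
      (by rw [← hy, V_eq t y ht]; exact hVa.trans (hVX y hy)) Z Y hY T
    rw [← hy, V_eq t y ht] at h4
    exact h4 hT (Rough t y) (fun m _ => rough_iff t y m ht)
  · intro t ht h3
    obtain ⟨g1, g2, g3⟩ := hyp t ht h3
    obtain ⟨v, Cv, hv, hCv, hV⟩ := Pool.Agent.W123.RU.Poly.V_bounds (fs t)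
      (Pool.Agent.TH464.PO.qs_sys _ _ _ (by norm_num) g1 g2 g3)
    obtain ⟨c, C, hc, hC, hVz⟩ := Pool.Agent.W123.RP.Vz_bounds
    refine ⟨Cv / c, fun y hy => ?_⟩
    have h1 := (hV y hy).2
    have h2 := (hVz y (by omega)).1
    rw [V_eq t y ht, Fintype.card_fin, pow_one] at h1
    rw [mertens_eq] at h2
    have hlog : 0 < Real.log y := Real.log_pos (by exact_mod_cast (by omega : 1 < y))
    calc V t y ≤ Cv / Real.log y := h1
      _ = Cv / c * (c / Real.log y) := by field_simp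
      _ ≤ Cv / c * mertens y := mul_le_mul_of_nonneg_left h2 (by positivity)

end Pool.Agent.Results.MP_22d6bb_nt.PoissonWindows
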